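import Pool.Agent.BE01.Stmts

/-!
# Squad BE01 (MP_be01ff_an), module ASM: the approximate solution as a function of time
-/

namespace Pool.Agent.BE01.H59

open Set Filter Topology MeasureTheory
open Pool.Agent.BE01
open scoped InnerProductSpace

noncomputable section

theorem cp_pos (p : ℕ) : 0 < cp p := by
  unfold cp
  have hc : Continuous fun s : ℝ => Real.sin s ^ (2 * p + 2) := Real.continuous_sin.pow _
  have h1 : ∫ s in (0 : ℝ)..(2 * Real.pi), Real.sin s ^ (2 * p + 2) =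
      (∫ s in (0 : ℝ)..Real.pi, Real.sin s ^ (2 * p + 2)) +
        ∫ s in Real.pi..(2 * Real.pi), Real.sin s ^ (2 * p + 2) :=
    (intervalIntegral.integral_add_adjacent_intervals (hc.intervalIntegrable _ _)
      (hc.intervalIntegrable _ _)).symm
  have h2 : 0 < ∫ s in (0 : ℝ)..Real.pi, Real.sin s ^ (2 * p + 2) := integral_sin_pow_pos _
  have h3 : 0 ≤ ∫ s in Real.pi..(2 * Real.pi), Real.sin s ^ (2 * p + 2) := by
    apply intervalIntegral.integral_nonneg (by linarith [Real.pi_pos])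
    intro s _
    have : Even (2 * p + 2) := ⟨p + 1, by ring⟩
    exact this.pow_nonneg _
  rw [h1]
  have := Real.pi_pos
  positivity

/-- The operator `D` commutes with bounded linear maps. -/
theorem lin_DD (hder : DerStmt) {M M' : Type} [NormedAddCommGroup M] [NormedSpace ℝ M]
    [NormedAddCommGroup M'] [NormedSpace ℝ M'] (T : M →L[ℝ] M') (α c : ℕ) (ω : ℝ)
    (a b : Polynomial ℝ) (P : ℝ → ℝ → M) (hP : P ∈ PP M α c) (ψ δ : ℝ) :
    DD α ω a b (fun ψ δ => T (P ψ δ)) ψ δ = T (DD α ω a b P ψ δ) := by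
  obtain ⟨_, _, _, h1, h2, _⟩ := hder M α c P hP
  have e1 : dps (fun ψ δ => T (P ψ δ)) ψ δ = T (dps P ψ δ) :=
    (T.hasFDerivAt.comp_hasDerivAt ψ (h1 ψ δ)).deriv
  have e2 : ddl (fun ψ δ => T (P ψ δ)) ψ δ = T (ddl P ψ δ) := by
    unfold ddl
    have h3 := (T.hasFDerivAt.comp_hasDerivAt δ (h2 ψ δ).hasDerivAt).deriv
    have h4 : deriv (fun s => T (P ψ s)) δ = T (deriv (fun s => P ψ s) δ) := h3
    rw [h4, map_smul]
  unfold DD
  rw [e1, e2]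
  simp only [map_add, map_smul]

/-- The operator `D` at `δ = 0`. -/
theorem DD_zero {M : Type} [NormedAddCommGroup M] [NormedSpace ℝ M] (α : ℕ) (ω : ℝ)
    (a b : Polynomial ℝ) (ha : a.eval 0 = 0) (hb : b.eval 0 = 0) (P : ℝ → ℝ → M) (f : ℝ → ℝ)
    (f' : ℝ) (x : M) (ψ : ℝ) (h0 : ∀ s, P s 0 = f s • x) (hf : HasDerivAt f f' ψ) :
    DD α ω a b P ψ 0 = (ω * f') • x := by
  unfold DD
  rw [ha, hb, zero_smul, zero_add, add_zero]
  have h1 : dps P ψ 0 = f' • x := by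
    unfold dps
    have h2 : (fun s => P s 0) = fun s => f s • x := funext h0
    rw [h2]
    exact (hf.smul_const x).deriv
  rw [h1, smul_smul]

theorem gsz_smul {X : Type} [NormedCommRing X] [NormedAlgebra ℝ X] (p : ℕ) (hp : 1 ≤ p)
    (B : ℝ) (hB : 0 ≤ B) (v0 v1 v2 : X) :
    gsz (2 * p + 1) (B • v0) (B • v1) (B • v2) = B ^ (2 * p) * gsz (2 * p + 1) v0 v1 v2 := by
  obtain ⟨m, rfl⟩ : ∃ m, p = m + 1 := ⟨p - 1, by omega⟩
  unfold gsz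
  have e1 : 2 * (m + 1) + 1 - 1 = 2 * m + 2 := by omega
  have e2 : 2 * (m + 1) + 1 - 2 = 2 * m + 1 := by omega
  have e3 : 2 * (m + 1) + 1 - 3 = 2 * m := by omega
  have e4 : 2 * (m + 1) = 2 * m + 2 := by ring
  rw [e1, e2, e3, e4]
  set n : ℝ := ((2 * m + 2 + 1 : ℕ) : ℝ) with hn
  have hBp : ∀ (z : X), ‖B ^ (2 * m + 2) • z‖ = B ^ (2 * m + 2) * ‖z‖ := by
    intro z
    rw [norm_smul, Real.norm_eq_abs, abs_of_nonneg (pow_nonneg hB _)]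
  have h1 : n • (B • v0) ^ (2 * m + 2) = B ^ (2 * m + 2) • (n • v0 ^ (2 * m + 2)) := by
    rw [smul_pow, smul_comm]
  have h2 : (n * (n - 1)) • ((B • v0) ^ (2 * m + 1) * (B • v1)) =
      B ^ (2 * m + 2) • ((n * (n - 1)) • (v0 ^ (2 * m + 1) * v1)) := by
    rw [smul_pow, smul_mul_smul_comm, ← pow_succ, smul_comm]
  have h3 : (n * (n - 1)) • ((B • v0) ^ (2 * m + 1) * (B • v2)) =
      B ^ (2 * m + 2) • ((n * (n - 1)) • (v0 ^ (2 * m + 1) * v2)) := by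
    rw [smul_pow, smul_mul_smul_comm, ← pow_succ, smul_comm]
  have h4 : (n * (n - 1) * (n - 2)) • ((B • v0) ^ (2 * m) * (B • v1) ^ 2) =
      B ^ (2 * m + 2) • ((n * (n - 1) * (n - 2)) • (v0 ^ (2 * m) * v1 ^ 2)) := by
    rw [smul_pow, smul_pow, smul_mul_smul_comm, ← pow_add, smul_comm]
  rw [h1, h2, h3, h4, ← smul_add, hBp, hBp, hBp]
  ring

/-- Elementary consequences of `t δ(t) → ℓ`. -/
theorem traj_bounds (δ : ℝ → ℝ) (ℓ t1 : ℝ) (ht1 : 1 ≤ t1) (hℓ : 0 < ℓ)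
    (hδ : ∀ t > t1, 0 < δ t ∧ δ t ≤ 1)
    (hlim : Tendsto (fun t => t * δ t) atTop (𝓝 ℓ)) :
    Tendsto δ atTop (𝓝 0) ∧ ∃ T ≥ t1, ∀ t > T, ∀ s : ℝ, 0 ≤ s →
      (ℓ / 2) ^ s * t ^ (-s) ≤ δ t ^ s ∧ δ t ^ s ≤ (2 * ℓ) ^ s * t ^ (-s) := by
  constructor
  · have h1 : Tendsto (fun t : ℝ => t * δ t * t⁻¹) atTop (𝓝 (ℓ * 0)) :=
      hlim.mul tendsto_inv_atTop_zero
    rw [mul_zero] at h1
    refine h1.congr' ?_
    filter_upwards [eventually_gt_atTop (0 : ℝ)] with t ht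
    field_simp
  · have h1 : ∀ᶠ t in atTop, ℓ / 2 < t * δ t := hlim.eventually (lt_mem_nhds (by linarith))
    have h2 : ∀ᶠ t in atTop, t * δ t < 2 * ℓ := hlim.eventually (gt_mem_nhds (by linarith))
    obtain ⟨T, hT⟩ := eventually_atTop.1 (h1.and h2)
    refine ⟨max T t1, le_max_right _ _, fun t ht s hs => ?_⟩
    have ht1' : t1 < t := lt_of_le_of_lt (le_max_right _ _) ht
    have htT : T ≤ t := ((le_max_left _ _).trans_lt ht).le
    have ht0 : 0 < t := by linarith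
    obtain ⟨h3, h4⟩ := hT t htT
    obtain ⟨h5, _⟩ := hδ t ht1'
    have h6 : (ℓ / 2) * t⁻¹ ≤ δ t := by
      rw [← div_eq_mul_inv, div_le_iff₀ ht0]
      linarith
    have h7 : δ t ≤ (2 * ℓ) * t⁻¹ := by
      rw [← div_eq_mul_inv, le_div_iff₀ ht0]
      linarith
    have h8 : t ^ (-s) = (t⁻¹) ^ s := by
      rw [Real.rpow_neg ht0.le, Real.inv_rpow ht0.le]
    have hti : 0 ≤ t⁻¹ := (inv_pos.2 ht0).le
    rw [h8, ← Real.mul_rpow (by linarith) hti, ← Real.mul_rpow (by linarith) hti]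
    exact ⟨Real.rpow_le_rpow (by positivity) h6 hs, Real.rpow_le_rpow h5.le h7 hs⟩

theorem asm (hapx : ApxStmt) (htrj : TrjStmt) (htrp : TrpStmt) (hder : DerStmt)
    (hprm : PrmStmt) (heva : EvaStmt) (hply : PlyStmt) (hddb : DdbStmt) (hgsz : GszStmt)
    (heng : EngStmt) : AsmStmt := by
  intro X Y H _ _ _ _ _ _ A W p a0 ω φ K hp ha0 hω hφ hSφ hγ hK hkap hslv
  obtain ⟨a, b, P, q, Q, hA, ha1⟩ := hapx X Y H A W p a0 ω φ K hp hω hφ hSφ hγ hK hslv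
  set φX : X := W.SX ((ω ^ 2) • φ) with hφX
  have hφφ : 0 < ⟪φ, φ⟫_ℝ := real_inner_self_pos.2 hφ
  set γ : ℝ := ⟪A.e (φX ^ (2 * p + 1)), φ⟫_ℝ / ⟪φ, φ⟫_ℝ with hγdef
  have hγp : 0 < γ := div_pos hγ hφφ
  have hcp := cp_pos p
  have hpR : (0 : ℝ) < p := by exact_mod_cast (by omega : 0 < p)
  have hb1 : 0 < a0 * ω ^ (2 * p) * cp p * γ / 2 := by positivity
  have ha1n : a.coeff 1 < 0 := by
    rw [ha1]
    linarith
  have ha1abs : |a.coeff 1| = a0 * ω ^ (2 * p) * cp p * γ / 2 := by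
    rw [ha1, abs_neg, abs_of_pos hb1]
  have hcast : ((2 * p : ℕ) : ℝ) = 2 * p := by push_cast; ring
  obtain ⟨t1, δ, ψ, ht1, hδ, hlim⟩ := htrj (2 * p) ω a b (by omega) hA.a_zero ha1n
  set ℓ : ℝ := 1 / (((2 * p : ℕ) : ℝ) * |a.coeff 1|) with hℓ
  have hℓp : 0 < ℓ := by
    rw [hℓ, ha1abs, hcast]
    positivity
  obtain ⟨hδ0, T1, hT1, hpow⟩ := traj_bounds δ ℓ t1 ht1 hℓp
    (fun t ht => ⟨(hδ t ht).1, (hδ t ht).2.1⟩) hlim
  have hδp : ∀ t > t1, 0 < δ t := fun t ht => (hδ t ht).1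
  have hδ1 : ∀ t > t1, δ t ≤ 1 := fun t ht => (hδ t ht).2.1
  -- the amplitude
  set σ : ℝ := 1 / ((2 * p : ℕ) : ℝ) with hσ
  have hσp : 0 < σ := by rw [hσ, hcast]; positivity
  set AA : ℝ → ℝ := fun s => δ s ^ σ with hAA
  have hAAnn : ∀ t > t1, 0 ≤ AA t := fun t ht => Real.rpow_nonneg (hδp t ht).le _
  have hAA1 : ∀ t > t1, AA t ≤ 1 := fun t ht =>
    Real.rpow_le_one (hδp t ht).le (hδ1 t ht) hσp.le
  have hAApow : ∀ t > t1, AA t ^ (2 * p) = δ t := by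
    intro t ht
    show (δ t ^ σ) ^ (2 * p) = δ t
    rw [hσ, one_div]
    exact Real.rpow_inv_natCast_pow (hδp t ht).le (by omega)
  have hAAsq : ∀ t > t1, AA t ^ 2 = δ t ^ (1 / (p : ℝ)) := by
    intro t ht
    show (δ t ^ σ) ^ 2 = _
    rw [← Real.rpow_mul_natCast (hδp t ht).le]
    have h1 : σ * ((2 : ℕ) : ℝ) = 1 / (p : ℝ) := by
      rw [hσ, hcast]
      push_cast
      field_simp
    rw [h1]
  -- evaluation along the trajectory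
  have htr : ∀ (M : Type) [NormedAddCommGroup M] [NormedSpace ℝ M] (c : ℕ) (F : ℝ → ℝ → M),
      F ∈ PP M (2 * p) c → DD (2 * p) ω a b F ∈ PP M (2 * p) c ∧
      ∀ t > t1, HasDerivAt (fun s => AA s • F (ψ s) (δ s))
        (AA t • DD (2 * p) ω a b F (ψ t) (δ t)) t := by
    intro M _ _ c F hF
    refine ⟨(hply M (2 * p) c ω a b F hF).2.1, fun t ht => ?_⟩
    obtain ⟨h1, _, h3, h4⟩ := hδ t ht
    exact (htrp M (2 * p) c ω a b F δ ψ t (by omega) hF h1 h3 h4).2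
  have hPq : P = fun ψ δ => W.SX (q ψ δ) := by
    funext ψ δ
    exact hA.P_eq ψ δ
  have hPm : P ∈ PP X (2 * p) 1 := by
    rw [hPq]
    exact ((hprm H X W.SX (2 * p) 1).2.2 q hA.q_mem).1
  obtain ⟨hD1m, hd1⟩ := htr X 1 P hPm
  set D1 : ℝ → ℝ → X := DD (2 * p) ω a b P with hD1
  obtain ⟨hD2m, hd2⟩ := htr X 1 D1 hD1m
  set D2 : ℝ → ℝ → X := DD (2 * p) ω a b D1 with hD2
  obtain ⟨hD3m, hd3⟩ := htr X 1 D2 hD2m
  set D3 : ℝ → ℝ → X := DD (2 * p) ω a b D2 with hD3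
  obtain ⟨_, hd4⟩ := htr X 1 D3 hD3m
  obtain ⟨_, hdq⟩ := htr H 1 q hA.q_mem
  -- the residual
  set Qh : ℝ → ℝ → H := fun ψ δ => δ ^ (K + 1) • Q ψ δ with hQh
  have hQhm : Qh ∈ PP H (2 * p) 1 :=
    (hprm H H (ContinuousLinearMap.id ℝ H) (2 * p) (1 + 2 * p * (K + 1))).1 1 (K + 1) Q
      hA.Q_mem le_rfl
  obtain ⟨hR1m, hr1⟩ := htr H 1 Qh hQhm
  set R1 : ℝ → ℝ → H := DD (2 * p) ω a b Qh with hR1
  obtain ⟨hR2m, hr2⟩ := htr H 1 R1 hR1m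
  set R2 : ℝ → ℝ → H := DD (2 * p) ω a b R1 with hR2
  obtain ⟨_, hr3⟩ := htr H 1 R2 hR2m
  obtain ⟨CQ, hCQ⟩ := hddb H (2 * p) (1 + 2 * p * (K + 1)) ω a b Q (K + 1) hA.Q_mem
  -- the leading terms
  have hP0 : ∀ s, P s 0 = Real.cos s • φX := by
    intro s
    rw [hA.P_eq, hA.q_zero, hφX, mul_comm, mul_smul, map_smul]
  have hL1 : ∀ s, D1 s 0 = (ω * -Real.sin s) • φX := fun s =>
    DD_zero (2 * p) ω a b hA.a_zero hA.b_zero P Real.cos (-Real.sin s) φX s hP0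
      (Real.hasDerivAt_cos s)
  have hL2 : ∀ s, D2 s 0 = (ω * (ω * -Real.cos s)) • φX := fun s =>
    DD_zero (2 * p) ω a b hA.a_zero hA.b_zero D1 (fun s => ω * -Real.sin s)
      (ω * -Real.cos s) φX s hL1 ((Real.hasDerivAt_sin s).neg.const_mul ω)
  have hL3 : ∀ s, D3 s 0 = (ω * (ω * (ω * -(-Real.sin s)))) • φX := fun s =>
    DD_zero (2 * p) ω a b hA.a_zero hA.b_zero D2 (fun s => ω * (ω * -Real.cos s))
      (ω * (ω * -(-Real.sin s))) φX s hL2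
      (((Real.hasDerivAt_cos s).neg.const_mul ω).const_mul ω)
  obtain ⟨C1, hC1⟩ := heva X (2 * p) 1 D1 hD1m
  obtain ⟨C2, hC2⟩ := heva X (2 * p) 1 D2 hD2m
  obtain ⟨C3, hC3⟩ := heva X (2 * p) 1 D3 hD3m
  obtain ⟨C4, hC4⟩ := heva H (2 * p) 1 q hA.q_mem
  have hC1n : 0 ≤ C1 := (norm_nonneg _).trans (hC1 0 0 le_rfl zero_le_one).1
  have hC2n : 0 ≤ C2 := (norm_nonneg _).trans (hC2 0 0 le_rfl zero_le_one).1
  have hC3n : 0 ≤ C3 := (norm_nonneg _).trans (hC3 0 0 le_rfl zero_le_one).1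
  have hC4n : 0 ≤ C4 := (norm_nonneg _).trans (hC4 0 0 le_rfl zero_le_one).1
  have hCQn : 0 ≤ CQ := by
    have h1 := hCQ 0 1 zero_le_one le_rfl
    rw [one_pow, mul_one] at h1
    exact le_trans (by positivity) h1
  -- the size of the derivative of the power map
  obtain ⟨C', hC'⟩ := hgsz X p ω (C1 + C2 + C3) φX hp hω
  set B : ℝ := (2 * p + 1) * (1 + 2 * p * ω) ^ 2 * (ω * ‖φX‖) ^ (2 * p) with hB
  have hgb : ∀ t > t1, gsz (2 * p + 1) (AA t • D1 (ψ t) (δ t)) (AA t • D2 (ψ t) (δ t))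
      (AA t • D3 (ψ t) (δ t)) ≤ δ t * (B + C' * δ t) := by
    intro t ht
    rw [gsz_smul p hp (AA t) (hAAnn t ht), hAApow t ht]
    refine mul_le_mul_of_nonneg_left ?_ (hδp t ht).le
    have hδn := (hδp t ht).le
    refine hC' (ψ t) (δ t) _ _ _ hδn (hδ1 t ht) ?_ ?_ ?_
    · have h1 := (hC1 (ψ t) (δ t) hδn (hδ1 t ht)).2
      have h2 : D1 (ψ t) (δ t) - D1 (ψ t) 0 =
          D1 (ψ t) (δ t) + (ω * Real.sin (ψ t)) • φX := by
        rw [hL1, mul_neg, neg_smul, sub_neg_eq_add]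
      rw [h2] at h1
      exact h1.trans (mul_le_mul_of_nonneg_right (by linarith) hδn)
    · have h1 := (hC2 (ψ t) (δ t) hδn (hδ1 t ht)).2
      have h2 : D2 (ψ t) (δ t) - D2 (ψ t) 0 =
          D2 (ψ t) (δ t) + (ω ^ 2 * Real.cos (ψ t)) • φX := by
        rw [hL2, mul_neg, mul_neg, neg_smul, sub_neg_eq_add, ← mul_assoc, ← pow_two]
      rw [h2] at h1
      exact h1.trans (mul_le_mul_of_nonneg_right (by linarith) hδn)
    · have h1 := (hC3 (ψ t) (δ t) hδn (hδ1 t ht)).2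
      have h2 : D3 (ψ t) (δ t) - D3 (ψ t) 0 =
          D3 (ψ t) (δ t) - (ω ^ 3 * Real.sin (ψ t)) • φX := by
        rw [hL3, neg_neg]
        have h3 : ω * (ω * (ω * Real.sin (ψ t))) = ω ^ 3 * Real.sin (ψ t) := by ring
        rw [h3]
      rw [h2] at h1
      exact h1.trans (mul_le_mul_of_nonneg_right (by linarith) hδn)
  have hlimg : Tendsto (fun t => a0 * ((t * δ t) * (B + C' * δ t))) atTop
      (𝓝 (a0 * (ℓ * (B + C' * 0)))) :=
    (hlim.mul ((hδ0.const_mul C').const_add B)).const_mul a0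
  have hval : a0 * (ℓ * (B + C' * 0)) = kap p ω ‖φX‖ γ := by
    rw [hℓ, ha1abs, hcast, hB, mul_zero, add_zero, mul_pow]
    unfold kap
    field_simp
  have hc1K : a0 * (ℓ * (B + C' * 0)) < (K : ℝ) + 1 / (4 * (p : ℝ)) := by
    rw [hval]
    have h1 : 0 < 1 / (4 * (p : ℝ)) := by positivity
    linarith
  obtain ⟨T2, hT2⟩ := eventually_atTop.1 (hlimg.eventually (gt_mem_nhds hc1K))
  -- the energy
  have heφ : A.e φX = φ := by
    rw [hφX, W.e_SX, map_smul]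
    exact hSφ
  obtain ⟨δ₁, c', C'', hδ₁, hc', hE⟩ := heng H W.R ω (‖A.e‖ * C1 + C4) φ hω hφ W.prp.R_symm
    (by rw [W.prp.RR]; exact hSφ)
  obtain ⟨T3, hT3⟩ := eventually_atTop.1 (hδ0.eventually (gt_mem_nhds hδ₁))
  have hEt : ∀ t > t1, T3 ≤ t → c' ≤ ‖A.e (D1 (ψ t) (δ t))‖ ^ 2 + ‖W.R (q (ψ t) (δ t))‖ ^ 2 ∧
      ‖A.e (D1 (ψ t) (δ t))‖ ^ 2 + ‖W.R (q (ψ t) (δ t))‖ ^ 2 ≤ C'' := by
    intro t ht htT
    have hδn := (hδp t ht).le
    refine hE (ψ t) (δ t) _ _ hδn (hT3 t htT).le ?_ ?_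
    · have h1 := (hC1 (ψ t) (δ t) hδn (hδ1 t ht)).2
      have h2 : A.e (D1 (ψ t) (δ t)) + (ω * Real.sin (ψ t)) • φ =
          A.e (D1 (ψ t) (δ t) - D1 (ψ t) 0) := by
        rw [hL1, mul_neg, neg_smul, sub_neg_eq_add, map_add, map_smul, heφ]
      rw [h2]
      refine (A.e.le_opNorm _).trans ?_
      have h3 : ‖A.e‖ * ‖D1 (ψ t) (δ t) - D1 (ψ t) 0‖ ≤ ‖A.e‖ * (C1 * δ t) :=
        mul_le_mul_of_nonneg_left h1 (norm_nonneg _)
      have h4 : 0 ≤ C4 * δ t := mul_nonneg hC4n hδn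
      linarith
    · have h1 := (hC4 (ψ t) (δ t) hδn (hδ1 t ht)).2
      rw [hA.q_zero] at h1
      have h4 : 0 ≤ ‖A.e‖ * C1 * δ t := mul_nonneg (mul_nonneg (norm_nonneg _) hC1n) hδn
      linarith
  -- the final time
  set T : ℝ := max T1 (max T2 T3) with hT
  have hTt : ∀ t > T, t > T1 ∧ t > t1 ∧ t ≥ T2 ∧ t ≥ T3 := by
    intro t ht
    have h1 : T1 < t := (le_max_left _ _).trans_lt ht
    have h2 : max T2 T3 < t := (le_max_right _ _).trans_lt ht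
    exact ⟨h1, hT1.trans_lt h1, ((le_max_left _ _).trans_lt h2).le,
      ((le_max_right _ _).trans_lt h2).le⟩
  have hT1' : 1 ≤ T := (ht1.trans hT1).trans (le_max_left _ _)
  set mm : ℝ := K + 1 + 1 / (2 * (p : ℝ)) with hmm
  have hnAA : ∀ t > t1, ∀ (M : Type) [NormedAddCommGroup M] [NormedSpace ℝ M] (x : M),
      ‖AA t • x‖ = AA t * ‖x‖ := by
    intro t ht M _ _ x
    rw [norm_smul, Real.norm_eq_abs, abs_of_nonneg (hAAnn t ht)]
  refine ⟨T, K + 1 / (4 * (p : ℝ)), C1 + C2 + C3, CQ * (2 * ℓ) ^ mm,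
    (ℓ / 2) ^ (1 / (p : ℝ)) * c', (2 * ℓ) ^ (1 / (p : ℝ)) * C'',
    fun t => AA t • D1 (ψ t) (δ t), fun t => AA t • D2 (ψ t) (δ t),
    fun t => AA t • D3 (ψ t) (δ t), fun t => AA t • DD (2 * p) ω a b q (ψ t) (δ t),
    fun t => AA t • q (ψ t) (δ t),
    ![fun t => AA t • Qh (ψ t) (δ t), fun t => AA t • R1 (ψ t) (δ t),
      fun t => AA t • R2 (ψ t) (δ t)], hT1', by positivity, ?_, by positivity, ?_, ?_, ?_, ?_,
    ?_, ?_, ?_, ?_, ?_, ?_, ?_, ?_⟩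
  · have h1 : 1 / (4 * (p : ℝ)) < 1 / (2 * (p : ℝ)) := by
      apply one_div_lt_one_div_of_lt (by positivity)
      linarith
    linarith
  · exact fun t ht => hd2 t (hTt t ht).2.1
  · exact fun t ht => hd3 t (hTt t ht).2.1
  · exact fun t ht => (hd4 t (hTt t ht).2.1).continuousAt.continuousWithinAt
  · intro t ht
    obtain ⟨_, ht', _, _⟩ := hTt t ht
    have hδn := (hδp t ht').le
    have hδ1' := hδ1 t ht'
    rw [hnAA t ht', hnAA t ht', hnAA t ht']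
    have h1 := (hC1 (ψ t) (δ t) hδn hδ1').1
    have h2 := (hC2 (ψ t) (δ t) hδn hδ1').1
    have h3 := (hC3 (ψ t) (δ t) hδn hδ1').1
    have h4 : ∀ u v : ℝ, 0 ≤ u → u ≤ v → AA t * u ≤ v := by
      intro u v hu huv
      calc AA t * u ≤ 1 * u := mul_le_mul_of_nonneg_right (hAA1 t ht') hu
        _ = u := one_mul u
        _ ≤ v := huv
    exact add_le_add (add_le_add (h4 _ _ (norm_nonneg _) h1) (h4 _ _ (norm_nonneg _) h2))
      (h4 _ _ (norm_nonneg _) h3)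
  · intro t ht
    obtain ⟨_, ht', ht2, _⟩ := hTt t ht
    have ht0 : 0 < t := by linarith
    rw [le_div_iff₀ ht0]
    have h1 := hgb t ht'
    have h2 := (hT2 t ht2).le
    calc a0 * gsz (2 * p + 1) (AA t • D1 (ψ t) (δ t)) (AA t • D2 (ψ t) (δ t))
          (AA t • D3 (ψ t) (δ t)) * t ≤ a0 * (δ t * (B + C' * δ t)) * t :=
        mul_le_mul_of_nonneg_right (mul_le_mul_of_nonneg_left h1 ha0.le) ht0.le
      _ = a0 * ((t * δ t) * (B + C' * δ t)) := by ring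
      _ ≤ _ := h2
  · refine ⟨fun t ht => hr1 t (hTt t ht).2.1, fun t ht => hr2 t (hTt t ht).2.1,
      fun t ht => (hr3 t (hTt t ht).2.1).continuousAt.continuousWithinAt⟩
  · intro t ht
    obtain ⟨htT1, ht', _, _⟩ := hTt t ht
    have ht0 : 0 < t := by linarith
    have hδn := (hδp t ht').le
    show ‖AA t • Qh (ψ t) (δ t)‖ + ‖AA t • R1 (ψ t) (δ t)‖ + ‖AA t • R2 (ψ t) (δ t)‖ ≤
      CQ * (2 * ℓ) ^ mm * t ^ (-mm)
    rw [hnAA t ht', hnAA t ht', hnAA t ht', ← mul_add, ← mul_add]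
    have h1 : ‖Qh (ψ t) (δ t)‖ + ‖R1 (ψ t) (δ t)‖ + ‖R2 (ψ t) (δ t)‖ ≤
        CQ * δ t ^ (K + 1) := hCQ (ψ t) (δ t) hδn (hδ1 t ht')
    have hmm0 : 0 ≤ mm := by rw [hmm]; positivity
    have h2 := (hpow t htT1 mm hmm0).2
    have h3 : AA t * (CQ * δ t ^ (K + 1)) = CQ * δ t ^ mm := by
      have h4 : δ t ^ mm = δ t ^ (K + 1) * AA t := by
        show δ t ^ mm = δ t ^ (K + 1) * δ t ^ σ
        rw [← Real.rpow_natCast (δ t) (K + 1), ← Real.rpow_add (hδp t ht')]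
        have h5 : mm = ((K + 1 : ℕ) : ℝ) + σ := by
          rw [hmm, hσ, hcast]
          push_cast
          ring
        rw [h5]
      rw [h4]
      ring
    calc AA t * (‖Qh (ψ t) (δ t)‖ + ‖R1 (ψ t) (δ t)‖ + ‖R2 (ψ t) (δ t)‖) ≤
          AA t * (CQ * δ t ^ (K + 1)) := mul_le_mul_of_nonneg_left h1 (hAAnn t ht')
      _ = CQ * δ t ^ mm := h3
      _ ≤ CQ * ((2 * ℓ) ^ mm * t ^ (-mm)) := mul_le_mul_of_nonneg_left h2 hCQn
      _ = _ := by ring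
  · exact fun t ht => (hdq t (hTt t ht).2.1).continuousAt.continuousWithinAt
  · intro t ht
    show AA t • D1 (ψ t) (δ t) = W.SX (AA t • DD (2 * p) ω a b q (ψ t) (δ t))
    rw [map_smul]
    have h1 := lin_DD hder W.SX (2 * p) 1 ω a b q hA.q_mem (ψ t) (δ t)
    rw [← hPq] at h1
    rw [← h1]
  · intro t ht
    have h1 := (A.e.hasFDerivAt (x := AA t • P (ψ t) (δ t))).comp_hasDerivAt t
      (hd1 t (hTt t ht).2.1)
    have h2 : (fun s => W.S (AA s • q (ψ s) (δ s))) =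
        fun s => A.e (AA s • P (ψ s) (δ s)) := by
      funext s
      rw [hA.P_eq, ← map_smul, W.e_SX]
    show HasDerivAt (fun s => W.S (AA s • q (ψ s) (δ s))) (A.e (AA t • D1 (ψ t) (δ t))) t
    rw [h2]
    exact h1
  · intro t ht
    obtain ⟨_, ht', _, _⟩ := hTt t ht
    show AA t • (δ t ^ (K + 1) • Q (ψ t) (δ t)) = A.e (AA t • D2 (ψ t) (δ t)) +
      AA t • q (ψ t) (δ t) + a0 • A.e ((AA t • D1 (ψ t) (δ t)) ^ (2 * p + 1))
    rw [← hA.res (ψ t) (δ t), smul_pow, pow_succ (AA t), hAApow t ht']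
    show AA t • (A.e (D2 (ψ t) (δ t)) + q (ψ t) (δ t) +
      (a0 * δ t) • A.e ((D1 (ψ t) (δ t)) ^ (2 * p + 1))) = _
    simp only [map_smul, smul_add, smul_smul]
    have h1 : AA t * (a0 * δ t) = a0 * (δ t * AA t) := by ring
    rw [h1]
  · intro t ht
    obtain ⟨htT1, ht', _, ht3⟩ := hTt t ht
    have ht0 : 0 < t := by linarith
    obtain ⟨h1, h2⟩ := hEt t ht' ht3
    obtain ⟨h3, h4⟩ := hpow t htT1 (1 / (p : ℝ)) (by positivity)
    have h5 : ‖A.e (AA t • D1 (ψ t) (δ t))‖ ^ 2 + ‖W.R (AA t • q (ψ t) (δ t))‖ ^ 2 =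
        δ t ^ (1 / (p : ℝ)) *
          (‖A.e (D1 (ψ t) (δ t))‖ ^ 2 + ‖W.R (q (ψ t) (δ t))‖ ^ 2) := by
      rw [map_smul, map_smul, hnAA t ht', hnAA t ht', mul_pow, mul_pow, hAAsq t ht']
      ring
    show (ℓ / 2) ^ (1 / (p : ℝ)) * c' * t ^ (-(1 / (p : ℝ))) ≤
        ‖A.e (AA t • D1 (ψ t) (δ t))‖ ^ 2 + ‖W.R (AA t • q (ψ t) (δ t))‖ ^ 2 ∧
      ‖A.e (AA t • D1 (ψ t) (δ t))‖ ^ 2 + ‖W.R (AA t • q (ψ t) (δ t))‖ ^ 2 ≤
        (2 * ℓ) ^ (1 / (p : ℝ)) * C'' * t ^ (-(1 / (p : ℝ)))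
    rw [h5]
    have h6 : 0 < δ t ^ (1 / (p : ℝ)) := Real.rpow_pos_of_pos (hδp t ht') _
    have h7 : 0 < C'' := lt_of_lt_of_le hc' (h1.trans h2)
    constructor
    · calc (ℓ / 2) ^ (1 / (p : ℝ)) * c' * t ^ (-(1 / (p : ℝ))) =
            ((ℓ / 2) ^ (1 / (p : ℝ)) * t ^ (-(1 / (p : ℝ)))) * c' := by ring
        _ ≤ δ t ^ (1 / (p : ℝ)) * c' := mul_le_mul_of_nonneg_right h3 hc'.le
        _ ≤ _ := mul_le_mul_of_nonneg_left h1 h6.le
    · calc δ t ^ (1 / (p : ℝ)) *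
            (‖A.e (D1 (ψ t) (δ t))‖ ^ 2 + ‖W.R (q (ψ t) (δ t))‖ ^ 2) ≤
            δ t ^ (1 / (p : ℝ)) * C'' := mul_le_mul_of_nonneg_left h2 h6.le
        _ ≤ ((2 * ℓ) ^ (1 / (p : ℝ)) * t ^ (-(1 / (p : ℝ)))) * C'' :=
          mul_le_mul_of_nonneg_right h4 h7.le
        _ = _ := by ring

end

end Pool.Agent.BE01.H59
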