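import Pool.Agent.BE01.Stmts

/-!
# Squad BE01 (MP_be01ff_an), module TRJ: the amplitude and the phase
-/

namespace Pool.Agent.BE01.H59

open Set Filter Topology MeasureTheory
open Pool.Agent.BE01

noncomputable section

/-- A scalar autonomous equation whose right side lies between two positive constants. -/
theorem auto_ode (h : ℝ → ℝ) (c C z0 : ℝ) (hc : 0 < c) (hcont : Continuous h)
    (hl : ∀ y, c ≤ h y) (hu : ∀ y, h y ≤ C) :
    ∃ z : ℝ → ℝ, z 0 = z0 ∧ (∀ t, HasDerivAt z (h (z t)) t) ∧ StrictMono z ∧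
      Tendsto z atTop atTop := by
  have hpos : ∀ y, 0 < h y := fun y => lt_of_lt_of_le hc (hl y)
  have hC : 0 < C := lt_of_lt_of_le hc ((hl 0).trans (hu 0))
  have hinv : Continuous fun y => (h y)⁻¹ := hcont.inv₀ fun y => (hpos y).ne'
  set G : ℝ → ℝ := fun y => ∫ s in z0..y, (h s)⁻¹ with hG
  have hGd : ∀ y, HasDerivAt G ((h y)⁻¹) y := fun y =>
    (hinv.integral_hasStrictDerivAt z0 y).hasDerivAt
  have hGc : Continuous G := continuous_iff_continuousAt.2 fun y => (hGd y).continuousAt
  have hGm : StrictMono G := by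
    apply strictMono_of_deriv_pos
    intro y
    rw [(hGd y).deriv]
    exact inv_pos.2 (hpos y)
  have hmono : Monotone fun y => G y - C⁻¹ * y := by
    apply monotone_of_deriv_nonneg
    · intro y
      exact ((hGd y).sub ((hasDerivAt_id y).const_mul (C⁻¹))).differentiableAt
    · intro y
      have h1 := (hGd y).sub ((hasDerivAt_id y).const_mul (C⁻¹))
      have h2 : deriv (fun y => G y - C⁻¹ * y) y = (h y)⁻¹ - C⁻¹ * 1 := h1.deriv
      rw [h2, mul_one]
      have : C⁻¹ ≤ (h y)⁻¹ := inv_anti₀ (hpos y) (hu y)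
      linarith
  have hCi : 0 < C⁻¹ := inv_pos.2 hC
  have htop : Tendsto G atTop atTop := by
    have h1 : Tendsto (fun y : ℝ => (G 0 - C⁻¹ * 0) + C⁻¹ * y) atTop atTop :=
      tendsto_atTop_add_const_left _ _ (tendsto_id.const_mul_atTop hCi)
    refine tendsto_atTop_mono' _ ?_ h1
    filter_upwards [eventually_ge_atTop (0 : ℝ)] with y hy
    have := hmono hy
    simp only at this
    linarith
  have hbot : Tendsto G atBot atBot := by
    have h1 : Tendsto (fun y : ℝ => (G 0 - C⁻¹ * 0) + C⁻¹ * y) atBot atBot :=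
      tendsto_atBot_add_const_left _ _ (tendsto_id.const_mul_atBot hCi)
    refine tendsto_atBot_mono' _ ?_ h1
    filter_upwards [eventually_le_atBot (0 : ℝ)] with y hy
    have := hmono hy
    simp only at this
    linarith
  have hsurj : Function.Surjective G := hGc.surjective htop hbot
  set e : ℝ ≃o ℝ := hGm.orderIsoOfSurjective G hsurj with he
  have heG : ∀ y, e y = G y := fun y => rfl
  refine ⟨e.symm, ?_, ?_, e.symm.strictMono, e.symm.tendsto_atTop⟩
  · rw [OrderIso.symm_apply_eq, heG]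
    simp [hG]
  · intro t
    have h1 : HasDerivAt e.symm (((h (e.symm t))⁻¹)⁻¹) t := by
      refine HasDerivAt.of_local_left_inverse e.symm.continuous.continuousAt (hGd (e.symm t))
        (inv_pos.2 (hpos _)).ne' ?_
      filter_upwards with y
      rw [← heG]
      exact e.apply_symm_apply y
    rwa [inv_inv] at h1

/-- If the derivative of `z` tends to `L` then `z t / t` tends to `L`. -/
theorem div_tendsto (z z' : ℝ → ℝ) (L : ℝ) (hz : ∀ t, HasDerivAt z (z' t) t)
    (hL : Tendsto z' atTop (𝓝 L)) : Tendsto (fun t => z t / t) atTop (𝓝 L) := by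
  rw [Metric.tendsto_atTop] at hL ⊢
  intro ε hε
  obtain ⟨T, hT⟩ := hL (ε / 2) (half_pos hε)
  set T' := max T 1 with hT'
  set D := |z T' - L * T'| with hD
  have hmv : ∀ t ≥ T', |(z t - L * t) - (z T' - L * T')| ≤ ε / 2 * (t - T') := by
    intro t ht
    have h1 := Convex.norm_image_sub_le_of_norm_hasDerivWithin_le (f := fun s => z s - L * s)
      (f' := fun s => z' s - L * 1) (C := ε / 2) (s := Ici T') (x := T') (y := t)
      (fun s _ => ((hz s).sub ((hasDerivAt_id s).const_mul L)).hasDerivWithinAt)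
      (fun s hs => by
        have h2 := hT s ((le_max_left _ _).trans hs)
        rw [Real.dist_eq] at h2
        rw [mul_one, Real.norm_eq_abs]
        exact h2.le) (convex_Ici T') (mem_Ici.2 le_rfl) (mem_Ici.2 ht)
    have h3 : ‖t - T'‖ = t - T' := by
      rw [Real.norm_eq_abs, abs_of_nonneg (sub_nonneg.2 ht)]
    rw [h3, Real.norm_eq_abs] at h1
    exact h1
  refine ⟨max T' (2 * D / ε + 1), fun t ht => ?_⟩
  have ht1 : T' ≤ t := (le_max_left _ _).trans ht
  have ht2 : 2 * D / ε + 1 ≤ t := (le_max_right _ _).trans ht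
  have htp : 1 ≤ T' := le_max_right _ _
  have ht0 : 0 < t := by linarith
  have h1 := hmv t ht1
  have h2 : |z t - L * t| ≤ ε / 2 * (t - T') + D := by
    have := abs_sub_abs_le_abs_sub (z t - L * t) (z T' - L * T')
    linarith
  have h3 : D < ε / 2 * t := by
    have h4 : 2 * D / ε < t := by linarith
    rw [div_lt_iff₀ hε] at h4
    linarith
  have h5 : |z t - L * t| < ε * t := by
    have : 0 < ε / 2 * T' := by positivity
    nlinarith
  rw [Real.dist_eq]
  have h6 : z t / t - L = (z t - L * t) / t := by field_simp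
  rw [h6, abs_div, abs_of_pos ht0, div_lt_iff₀ ht0]
  exact h5

theorem trj : TrjStmt := by
  intro α ω a b hα ha0 ha1
  set ã : Polynomial ℝ := a.divX with hã
  have hae : ∀ x : ℝ, a.eval x = ã.eval x * x := by
    intro x
    have h1 := congrArg (Polynomial.eval x) (Polynomial.divX_mul_X_add a)
    have h2 : a.coeff 0 = 0 := by rw [Polynomial.coeff_zero_eq_eval_zero, ha0]
    rw [h2] at h1
    simp only [Polynomial.eval_add, Polynomial.eval_mul, Polynomial.eval_X, Polynomial.eval_C,
      add_zero] at h1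
    exact h1.symm
  have hã0 : ã.eval 0 = a.coeff 1 := by
    rw [← Polynomial.coeff_zero_eq_eval_zero, hã, Polynomial.coeff_divX]
  set L : ℝ := α * |a.coeff 1| with hL
  have hαp : (0 : ℝ) < α := by exact_mod_cast (by omega : 0 < α)
  have hLpos : 0 < L := mul_pos hαp (abs_pos.2 ha1.ne)
  have hLeq : L = -(α * ã.eval 0) := by
    rw [hã0, hL, abs_of_neg ha1]
    ring
  set g : ℝ → ℝ := fun y => -(α * ã.eval (y⁻¹)) with hg
  have hgt : Tendsto g atTop (𝓝 L) := by
    rw [hLeq]
    have h1 : Tendsto (fun y : ℝ => ã.eval (y⁻¹)) atTop (𝓝 (ã.eval 0)) :=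
      (ã.continuous.tendsto 0).comp tendsto_inv_atTop_zero
    exact (h1.const_mul (α : ℝ)).neg
  obtain ⟨z0, hz01, hz0⟩ : ∃ z0 : ℝ, 1 ≤ z0 ∧ ∀ y ≥ z0, L / 2 ≤ g y ∧ g y ≤ 2 * L := by
    have h1 : ∀ᶠ y in atTop, L / 2 < g y := hgt.eventually (lt_mem_nhds (by linarith))
    have h2 : ∀ᶠ y in atTop, g y < 2 * L := hgt.eventually (gt_mem_nhds (by linarith))
    obtain ⟨T, hT⟩ := eventually_atTop.1 (h1.and h2)
    exact ⟨max T 1, le_max_right _ _, fun y hy =>
      ⟨(hT y ((le_max_left _ _).trans hy)).1.le, (hT y ((le_max_left _ _).trans hy)).2.le⟩⟩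
  have hmax : ∀ y, z0 ≤ max y z0 := fun y => le_max_right _ _
  have hmaxc : Continuous fun y : ℝ => (max y z0)⁻¹ :=
    (continuous_id.max continuous_const).inv₀ fun y => by
      have := hmax y
      have h3 : (0 : ℝ) < max y z0 := by linarith
      exact h3.ne'
  obtain ⟨z, hz00, hzd, hzm, hzt⟩ := auto_ode (fun y => g (max y z0)) (L / 2) (2 * L) z0
    (by linarith) (by
      show Continuous fun y => -(α * ã.eval ((max y z0)⁻¹))
      exact ((ã.continuous.comp hmaxc).const_smul (α : ℝ)).neg)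
    (fun y => (hz0 _ (hmax y)).1) (fun y => (hz0 _ (hmax y)).2)
  -- shift of time
  set Z : ℝ → ℝ := fun t => z (t - 1) with hZ
  have hZd : ∀ t, HasDerivAt Z (g (max (Z t) z0)) t := by
    intro t
    have h1 := (hzd (t - 1)).comp t ((hasDerivAt_id t).sub_const (1 : ℝ))
    rw [mul_one] at h1
    exact h1
  have hZge : ∀ t, 1 ≤ t → z0 ≤ Z t := by
    intro t ht
    have h1 : z 0 ≤ z (t - 1) := hzm.monotone (by linarith)
    rwa [hz00] at h1
  have hZt : Tendsto Z atTop atTop :=
    hzt.comp (tendsto_atTop_add_const_right atTop (-1 : ℝ) tendsto_id)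
  have hZc : Continuous Z := continuous_iff_continuousAt.2 fun t => (hZd t).continuousAt
  have hZdiv : Tendsto (fun t => Z t / t) atTop (𝓝 L) := by
    refine div_tendsto Z (fun t => g (max (Z t) z0)) L hZd ?_
    refine hgt.comp ?_
    exact tendsto_atTop_mono (fun t => le_max_left _ _) hZt
  set β : ℝ → ℝ := fun s => b.eval ((max (Z s) z0)⁻¹) with hβ
  have hβc : Continuous β := b.continuous.comp (hmaxc.comp hZc)
  refine ⟨1, fun t => (Z t)⁻¹, fun t => ω * t + ∫ s in (1 : ℝ)..t, β s, le_rfl, ?_, ?_⟩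
  · intro t ht
    have h1 := hZge t ht.le
    have hZp : 0 < Z t := by linarith
    have hmx : max (Z t) z0 = Z t := max_eq_left h1
    refine ⟨inv_pos.2 hZp, ?_, ?_, ?_⟩
    · exact inv_le_one_of_one_le₀ (by linarith)
    · have h2 := (hZd t).inv hZp.ne'
      have h3 : -g (max (Z t) z0) / Z t ^ 2 = (Z t)⁻¹ * (α * a.eval ((Z t)⁻¹)) := by
        rw [hmx, hae, hg]
        field_simp
      rw [h3] at h2
      exact h2
    · have h2 : HasDerivAt (fun t => ω * t + ∫ s in (1 : ℝ)..t, β s) (ω * 1 + β t) t :=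
        ((hasDerivAt_id t).const_mul ω).add (hβc.integral_hasStrictDerivAt 1 t).hasDerivAt
      have h3 : ω * 1 + β t = ω + b.eval ((Z t)⁻¹) := by
        rw [mul_one, hβ]
        simp only [hmx]
      rw [h3] at h2
      exact h2
  · have h1 := hZdiv.inv₀ hLpos.ne'
    rw [one_div]
    refine h1.congr fun t => ?_
    rw [inv_div, div_eq_mul_inv]

end

end Pool.Agent.BE01.H59
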